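import Mathlib
import Pool.Agent.W659.PV.Stm
import Pool.Agent.H437R2.Man.MWSel

/-! Project PV: the number of classes modulo squares with small odd part. -/

set_option autoImplicit false

namespace Pool.Agent.W591.PV

open NumberField IsDedekindDomain Pool.Agent.W659.PV Filter

variable {K : Type} [Field K] [NumberField K]

lemma finite_val_ne_one (k : K) (hk : k ≠ 0) :
    {v : HeightOneSpectrum (𝓞 K) | v.valuation K k ≠ 1}.Finite := by
  apply Set.Finite.subset ((HeightOneSpectrum.Support.finite (𝓞 K) k).union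
    (HeightOneSpectrum.Support.finite (𝓞 K) k⁻¹))
  intro v hv
  rcases lt_or_gt_of_ne hv with h | h
  · right
    change 1 < v.valuation K k⁻¹
    rw [map_inv₀]
    exact (one_lt_inv₀ (by
      rw [zero_lt_iff]
      exact (Valuation.ne_zero_iff _).mpr hk)).mpr h
  · left
    exact h

lemma oddP_finite (S : Set (HeightOneSpectrum (𝓞 K))) (x : K) (hx : x ≠ 0) :
    (OddP S x).Finite := by
  apply (finite_val_ne_one x hx).subset
  intro v hv h1
  exact hv.2 (by rw [h1]; exact IsSquare.one)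

/-- squares and even valuations -/
lemma isSquare_iff (v : HeightOneSpectrum (𝓞 K)) (a : Kˣ) :
    IsSquare (v.valuation K (a : K)) ↔ Even (Multiplicative.toAdd (v.valuationOfNeZero a)) := by
  rw [← v.valuationOfNeZero_eq]
  constructor
  · rintro ⟨r, hr⟩
    have hr0 : r ≠ 0 := by
      rintro rfl
      simp at hr
    obtain ⟨s, rfl⟩ := WithZero.ne_zero_iff_exists.1 hr0
    rw [← WithZero.coe_mul] at hr
    have := WithZero.coe_injective hr
    rw [this]
    exact ⟨Multiplicative.toAdd s, by rw [toAdd_mul]⟩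
  · rintro ⟨r, hr⟩
    refine ⟨((Multiplicative.ofAdd r : Multiplicative ℤ) : WithZero (Multiplicative ℤ)), ?_⟩
    rw [← WithZero.coe_mul, ← ofAdd_add, ← hr]
    rfl

/-- the product of the odd primes -/
noncomputable def oddI (S : Set (HeightOneSpectrum (𝓞 K))) (x : K) : Ideal (𝓞 K) :=
  ∏ᶠ v ∈ OddP S x, v.asIdeal

lemma oddI_eq (S : Set (HeightOneSpectrum (𝓞 K))) (x : K) (hx : x ≠ 0) :
    oddI S x = ∏ v ∈ (oddP_finite S x hx).toFinset, v.asIdeal :=
  finprod_mem_eq_finite_toFinset_prod _ _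

lemma absNorm_oddI (S : Set (HeightOneSpectrum (𝓞 K))) (x : K) (hx : x ≠ 0) :
    Ideal.absNorm (oddI S x) = oddNorm S x := by
  rw [oddI_eq S x hx, map_prod]
  exact (finprod_mem_eq_finite_toFinset_prod _ _).symm

lemma mem_oddP_iff (S : Set (HeightOneSpectrum (𝓞 K))) (x : K) (hx : x ≠ 0)
    (v : HeightOneSpectrum (𝓞 K)) : v ∈ OddP S x ↔ v.asIdeal ∣ oddI S x := by
  rw [oddI_eq S x hx]
  constructor
  · intro hv
    exact Finset.dvd_prod_of_mem (fun v : HeightOneSpectrum (𝓞 K) => v.asIdeal)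
      ((Set.Finite.mem_toFinset _).2 hv)
  · intro hv
    obtain ⟨w, hw, hd⟩ := (Prime.dvd_finsetProd_iff v.prime _).1 hv
    have : w = v := by
      apply HeightOneSpectrum.ext
      rw [Ideal.dvd_iff_le] at hd
      exact w.isMaximal.eq_of_le v.isPrime.ne_top hd
    rw [← this]
    exact (Set.Finite.mem_toFinset _).1 hw

lemma oddP_eq (S : Set (HeightOneSpectrum (𝓞 K))) (x y : K) (hx : x ≠ 0) (hy : y ≠ 0)
    (h : oddI S x = oddI S y) : OddP S x = OddP S y := by
  ext v
  rw [mem_oddP_iff S x hx, mem_oddP_iff S y hy, h]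

/-- the number of ideals of bounded norm -/
lemma card_ideals (K : Type) [Field K] [NumberField K] :
    ∃ C : ℕ, ∀ D : ℕ, 1 ≤ D → Nat.card {I : Ideal (𝓞 K) // Ideal.absNorm I ≤ D} ≤ C * D := by
  have h := NumberField.Ideal.tendsto_norm_le_div_atTop K
  obtain ⟨M, hM⟩ := h.isBoundedUnder_le
  rw [eventually_map, eventually_atTop] at hM
  obtain ⟨a, ha⟩ := hM
  obtain ⟨N, hN⟩ := exists_nat_ge (max a 1)
  have fin : ∀ D : ℕ, Finite {I : Ideal (𝓞 K) // Ideal.absNorm I ≤ D} := fun D =>
    (Ideal.finite_setOfPred_absNorm_le (S := 𝓞 K) D).to_subtype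
  refine ⟨Nat.card {I : Ideal (𝓞 K) // Ideal.absNorm I ≤ N} + ⌈|M|⌉₊, fun D hD => ?_⟩
  rcases le_total D N with hDN | hDN
  · have := fin N
    calc Nat.card {I : Ideal (𝓞 K) // Ideal.absNorm I ≤ D}
        ≤ Nat.card {I : Ideal (𝓞 K) // Ideal.absNorm I ≤ N} :=
          Nat.card_le_card_of_injective (fun I => ⟨I.1, I.2.trans hDN⟩)
            (fun I J h => Subtype.ext (by simpa using h))
      _ ≤ (Nat.card {I : Ideal (𝓞 K) // Ideal.absNorm I ≤ N} + ⌈|M|⌉₊) * D := by
          nlinarith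
  · have h1 := ha (D : ℝ) ((le_max_left a 1).trans (hN.trans (by exact_mod_cast hDN)))
    have hD0 : (0 : ℝ) < D := by exact_mod_cast hD
    beta_reduce at h1
    rw [div_le_iff₀ hD0] at h1
    have h2 : (Nat.card {I : Ideal (𝓞 K) // Ideal.absNorm I ≤ D} : ℝ) ≤ M * D := by
      simpa using h1
    have h3 : (Nat.card {I : Ideal (𝓞 K) // Ideal.absNorm I ≤ D} : ℝ) ≤ (⌈|M|⌉₊ : ℕ) * D := by
      refine h2.trans ?_
      gcongr
      exact (le_abs_self M).trans (Nat.le_ceil _)
    have h4 : Nat.card {I : Ideal (𝓞 K) // Ideal.absNorm I ≤ D} ≤ ⌈|M|⌉₊ * D := by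
      exact_mod_cast h3
    refine h4.trans ?_
    gcongr
    omega

theorem main : S_CLS2 := by
  intro K _ _ S hS
  classical
  obtain ⟨T, hT0, hT⟩ := Pool.Agent.H437R2.Man.MW.sel_finite (K := K) S hS
  obtain ⟨C, hC⟩ := card_ideals K
  let T' : Finset Kˣ := T.attach.image (fun t => Units.mk0 t.1 (hT0 t.1 t.2))
  have hT'c : T'.card ≤ T.card := by
    refine Finset.card_image_le.trans ?_
    rw [Finset.card_attach]
  let rep : Ideal (𝓞 K) → Kˣ := fun J =>
    if h : ∃ y : Kˣ, oddI S (y : K) = J then Classical.choose h else 1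
  have hrep : ∀ x : Kˣ, oddI S ((rep (oddI S (x : K)) : Kˣ) : K) = oddI S (x : K) := by
    intro x
    have h : ∃ y : Kˣ, oddI S (y : K) = oddI S (x : K) := ⟨x, rfl⟩
    simp only [rep]
    rw [dif_pos h]
    exact Classical.choose_spec h
  refine ⟨C * T.card, fun D hD => ?_⟩
  have hfin : {I : Ideal (𝓞 K) | Ideal.absNorm I ≤ D}.Finite :=
    Ideal.finite_setOfPred_absNorm_le (S := 𝓞 K) D
  refine ⟨(hfin.toFinset ×ˢ T').image (fun c => rep c.1 * c.2), ?_, ?_⟩
  · refine Finset.card_image_le.trans ?_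
    rw [Finset.card_product]
    have h1 : hfin.toFinset.card ≤ C * D := by
      have := hC D hD
      rw [← Set.ncard_eq_toFinset_card _ hfin]
      exact this
    calc hfin.toFinset.card * T'.card ≤ (C * D) * T.card := Nat.mul_le_mul h1 hT'c
      _ = C * T.card * D := by ring
      _ ≤ C * T.card * D ^ 2 := by
        apply Nat.mul_le_mul le_rfl
        nlinarith
  · intro x hx hxD
    set u : Kˣ := Units.mk0 x hx with hu
    set y : Kˣ := rep (oddI S (u : K)) with hy
    have hyx : oddI S (y : K) = oddI S (u : K) := hrep u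
    have hP := oddP_eq S _ _ y.ne_zero u.ne_zero hyx
    obtain ⟨t, ht, b, hb, hxy⟩ := hT (u * y) (by
      intro v hv
      rw [map_mul, toAdd_mul]
      have h1 : v ∈ OddP S (y : K) ↔ v ∈ OddP S (u : K) := by rw [hP]
      simp only [OddP, Set.mem_ofPred_eq, hv, not_false_eq_true, true_and, isSquare_iff] at h1
      rw [Int.even_add]
      tauto)
    refine ⟨y * Units.mk0 t (hT0 t ht), ?_, b / (y : K), div_ne_zero hb y.ne_zero, ?_⟩
    · refine Finset.mem_image.2 ⟨(oddI S (u : K), Units.mk0 t (hT0 t ht)), ?_, rfl⟩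
      rw [Finset.mem_product]
      constructor
      · rw [Set.Finite.mem_toFinset, Set.mem_ofPred_eq, absNorm_oddI S _ u.ne_zero]
        exact hxD
      · exact Finset.mem_image.2 ⟨⟨t, ht⟩, Finset.mem_attach _ _, rfl⟩
    · have hy0 : (y : K) ≠ 0 := y.ne_zero
      have hxy' : x * (y : K) = t * b ^ 2 := by
        rw [← hxy, Units.val_mul]
        rfl
      push_cast
      rw [Units.val_mk0]
      field_simp
      linear_combination hxy'

end Pool.Agent.W591.PV
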